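import Pool.Agent.Lib.MP_688fd0_co.TE.Iface5

/-!
# Theorem E: concentration for functions of uniform levels (tools for REG5)
-/

set_option autoImplicit false

namespace Pool.Agent.Lib.MP_688fd0_co.TE.H48

open Pool.Agent.Lib.MP_688fd0_co.TE

universe u

section unif

variable {K : Type u} [Fintype K] [DecidableEq K] {m : ℕ} [NeZero m]

/-- uniform weights are product weights -/
theorem unifW_eq : unifW (K → ZMod m) = piW (fun _ : K => unifW (ZMod m)) := by
  funext ω
  unfold unifW piW
  rw [Finset.prod_const, Fintype.card_fun, Finset.card_univ]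
  push_cast
  rw [one_div, one_div, inv_pow]

theorem isPr_unif : IsPr (unifW (ZMod m)) where
  nn := by
    intro ω
    unfold unifW
    positivity
  one := by
    unfold unifW
    rw [Finset.sum_const, Finset.card_univ, nsmul_eq_mul, ZMod.card]
    have : (m : ℝ) ≠ 0 := Nat.cast_ne_zero.2 (NeZero.ne m)
    field_simp

theorem isPr_unifPi : IsPr (unifW (K → ZMod m)) where
  nn := by
    intro ω
    unfold unifW
    positivity
  one := by
    unfold unifW
    rw [Finset.sum_const, Finset.card_univ, nsmul_eq_mul]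
    have : (Fintype.card (K → ZMod m) : ℝ) ≠ 0 := Nat.cast_ne_zero.2 Fintype.card_ne_zero
    field_simp

theorem abs_ind_sub_le (p q : Prop) : |ind p - ind q| ≤ 1 := by
  have h1 := ind_nonneg p
  have h2 := ind_le_one p
  have h3 := ind_nonneg q
  have h4 := ind_le_one q
  rw [abs_le]
  constructor <;> linarith

/-- Bounded differences for a function whose dependence on the coordinates goes through
vertices. -/
theorem mcd_co (hM : MCD_S.{u, 0}) {V : Type*} [Fintype V] (co : V → Option K)
    (hco : ∀ κ, ∑ v, ind (co v = some κ) ≤ 2) (F : (K → ZMod m) → ℝ) (D : V → ℝ)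
    {M S d : ℝ} (hD0 : ∀ v, 0 ≤ D v) (hDM : ∀ v, D v ≤ M) (hS : ∑ v, D v ≤ S) (hM0 : 0 < M)
    (hS0 : 0 < S) (hd : 0 < d)
    (hF : ∀ ω κ a, |F (Function.update ω κ a) - F ω| ≤ ∑ v, ind (co v = some κ) * D v) :
    Pr (unifW (K → ZMod m)) (fun ω => d ≤ |F ω - Ex (unifW (K → ZMod m)) F|) ≤
      2 * Real.exp (-(d ^ 2 / (4 * M * S))) := by
  have h := hM K (fun _ => ZMod m) (fun _ => unifW (ZMod m)) (fun _ => isPr_unif) F
    (fun κ => ∑ v, ind (co v = some κ) * D v) (2 * M * S) d hF ?_ (by positivity) hd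
  · rw [← unifW_eq] at h
    rw [show 2 * (2 * M * S) = 4 * M * S by ring] at h
    exact h
  · have h1 : ∀ κ, (∑ v, ind (co v = some κ) * D v) ^ 2 ≤
        2 * M * ∑ v, ind (co v = some κ) * D v := by
      intro κ
      have h2 : 0 ≤ ∑ v, ind (co v = some κ) * D v :=
        Finset.sum_nonneg fun v _ => mul_nonneg (ind_nonneg _) (hD0 v)
      have h3 : ∑ v, ind (co v = some κ) * D v ≤ 2 * M := by
        calc ∑ v, ind (co v = some κ) * D v ≤ ∑ v, ind (co v = some κ) * M :=
              Finset.sum_le_sum fun v _ => mul_le_mul_of_nonneg_left (hDM v) (ind_nonneg _)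
          _ = (∑ v, ind (co v = some κ)) * M := by rw [Finset.sum_mul]
          _ ≤ 2 * M := mul_le_mul_of_nonneg_right (hco κ) hM0.le
      rw [sq]
      exact mul_le_mul_of_nonneg_right h3 h2
    calc ∑ κ, (∑ v, ind (co v = some κ) * D v) ^ 2
        ≤ ∑ κ, 2 * M * ∑ v, ind (co v = some κ) * D v := Finset.sum_le_sum fun κ _ => h1 κ
      _ = 2 * M * ∑ v, D v * ∑ κ, ind (co v = some κ) := by
          rw [← Finset.mul_sum, Finset.sum_comm]
          congr 1
          refine Finset.sum_congr rfl fun v _ => ?_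
          rw [Finset.mul_sum]
          exact Finset.sum_congr rfl fun κ _ => mul_comm _ _
      _ ≤ 2 * M * ∑ v, D v := by
          refine mul_le_mul_of_nonneg_left (Finset.sum_le_sum fun v _ => ?_) (by positivity)
          have h2 : ∑ κ, ind (co v = some κ) ≤ 1 := by
            rcases hv : co v with _ | κ0
            · refine (Finset.sum_nonpos fun κ _ => ?_).trans zero_le_one
              rw [ind_not (by simp)]
            · rw [Finset.sum_eq_single κ0]
              · exact ind_le_one _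
              · intro κ _ hκ
                rw [ind_not]
                intro h
                exact hκ (Option.some.inj h).symm
              · intro h
                exact absurd (Finset.mem_univ κ0) h
          calc D v * ∑ κ, ind (co v = some κ) ≤ D v * 1 :=
                mul_le_mul_of_nonneg_left h2 (hD0 v)
            _ = D v := mul_one _
      _ ≤ 2 * M * S := mul_le_mul_of_nonneg_left hS (by positivity)

/-- the level of a vertex -/
def lvl (co : Option K) (ω : K → ZMod m) : ZMod m := co.elim 0 ω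

omit [Fintype K] [NeZero m] in
theorem lvl_update {co : Option K} {κ : K} (h : co ≠ some κ) (ω : K → ZMod m) (a : ZMod m) :
    lvl co (Function.update ω κ a) = lvl co ω := by
  rcases co with _ | κ0
  · rfl
  · have h1 : κ0 ≠ κ := fun e => h (by rw [e])
    change Function.update ω κ a κ0 = ω κ0
    rw [Function.update_of_ne h1]

omit [Fintype K] [NeZero m] in
/-- the change of a two body sum under a change of one coordinate -/
theorem two_body {V : Type*} [Fintype V] (co : V → Option K) (w : V → V → ℝ)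
    (hw : ∀ x y, 0 ≤ w x y) (Q : V → V → ZMod m → ZMod m → Prop) (ω : K → ZMod m) (κ : K)
    (a : ZMod m) :
    |(∑ x, ∑ y, w x y * ind (Q x y (lvl (co x) (Function.update ω κ a))
        (lvl (co y) (Function.update ω κ a)))) -
      ∑ x, ∑ y, w x y * ind (Q x y (lvl (co x) ω) (lvl (co y) ω))| ≤
      ∑ v, ind (co v = some κ) * (∑ y, w v y + ∑ x, w x v) := by
  rw [← Finset.sum_sub_distrib]
  have h1 : ∀ x y, |w x y * ind (Q x y (lvl (co x) (Function.update ω κ a))
        (lvl (co y) (Function.update ω κ a))) - w x y * ind (Q x y (lvl (co x) ω) (lvl (co y) ω))| ≤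
      ind (co x = some κ) * w x y + ind (co y = some κ) * w x y := by
    intro x y
    rw [← mul_sub, abs_mul, abs_of_nonneg (hw x y)]
    by_cases hx : co x = some κ
    · rw [ind_of hx]
      have := abs_ind_sub_le (Q x y (lvl (co x) (Function.update ω κ a))
        (lvl (co y) (Function.update ω κ a))) (Q x y (lvl (co x) ω) (lvl (co y) ω))
      have h2 := mul_le_mul_of_nonneg_left this (hw x y)
      have h3 := mul_nonneg (ind_nonneg (co y = some κ)) (hw x y)
      linarith
    · by_cases hy : co y = some κ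
      · rw [ind_of hy, ind_not hx]
        have := abs_ind_sub_le (Q x y (lvl (co x) (Function.update ω κ a))
          (lvl (co y) (Function.update ω κ a))) (Q x y (lvl (co x) ω) (lvl (co y) ω))
        have h2 := mul_le_mul_of_nonneg_left this (hw x y)
        linarith
      · rw [lvl_update hx, lvl_update hy, sub_self, abs_zero, mul_zero, ind_not hx, ind_not hy]
        simp
  calc |∑ x, ((∑ y, w x y * ind (Q x y (lvl (co x) (Function.update ω κ a))
        (lvl (co y) (Function.update ω κ a)))) -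
      ∑ y, w x y * ind (Q x y (lvl (co x) ω) (lvl (co y) ω)))|
      ≤ ∑ x, ∑ y, (ind (co x = some κ) * w x y + ind (co y = some κ) * w x y) := by
        refine (Finset.abs_sum_le_sum_abs _ _).trans (Finset.sum_le_sum fun x _ => ?_)
        rw [← Finset.sum_sub_distrib]
        exact (Finset.abs_sum_le_sum_abs _ _).trans (Finset.sum_le_sum fun y _ => h1 x y)
    _ = ∑ v, ind (co v = some κ) * (∑ y, w v y + ∑ x, w x v) := by
        simp only [Finset.sum_add_distrib, mul_add, Finset.mul_sum]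
        congr 1
        rw [Finset.sum_comm]

omit [Fintype K] [NeZero m] in
/-- the change of a one body sum under a change of one coordinate -/
theorem one_body {V : Type*} [Fintype V] (co : V → Option K) (w : V → ℝ)
    (hw : ∀ x, 0 ≤ w x) (Q : V → ZMod m → Prop) (ω : K → ZMod m) (κ : K)
    (a : ZMod m) :
    |(∑ x, w x * ind (Q x (lvl (co x) (Function.update ω κ a)))) -
      ∑ x, w x * ind (Q x (lvl (co x) ω))| ≤ ∑ v, ind (co v = some κ) * w v := by
  rw [← Finset.sum_sub_distrib]
  refine (Finset.abs_sum_le_sum_abs _ _).trans (Finset.sum_le_sum fun x _ => ?_)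
  rw [← mul_sub, abs_mul, abs_of_nonneg (hw x)]
  by_cases hx : co x = some κ
  · rw [ind_of hx]
    have := abs_ind_sub_le (Q x (lvl (co x) (Function.update ω κ a))) (Q x (lvl (co x) ω))
    have h2 := mul_le_mul_of_nonneg_left this (hw x)
    linarith
  · rw [lvl_update hx, sub_self, abs_zero, mul_zero, ind_not hx, zero_mul]

/-! ### Expectations -/

theorem ex_sum {Ω : Type*} [Fintype Ω] (μ : Ω → ℝ) {ι : Type*} (s : Finset ι) (f : ι → Ω → ℝ) :
    Ex μ (fun ω => ∑ i ∈ s, f i ω) = ∑ i ∈ s, Ex μ (f i) := by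
  unfold Ex
  simp only [Finset.mul_sum]
  rw [Finset.sum_comm]

theorem ex_mul {Ω : Type*} [Fintype Ω] (μ : Ω → ℝ) (c : ℝ) (f : Ω → ℝ) :
    Ex μ (fun ω => c * f ω) = c * Ex μ f := by
  unfold Ex
  rw [Finset.mul_sum]
  exact Finset.sum_congr rfl fun ω _ => by ring

theorem ex_const {Ω : Type*} [Fintype Ω] {μ : Ω → ℝ} (h : IsPr μ) (c : ℝ) :
    Ex μ (fun _ => c) = c := by
  unfold Ex
  rw [← Finset.sum_mul, h.one, one_mul]

/-- probability that the coordinate `κ` lies in a set of size `n` determined by the others -/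
theorem ex_shift (hU : UPD_S.{u, 0}) (κ : K) (S : (K → ZMod m) → Finset (ZMod m))
    (hS : ∀ ω a, S (Function.update ω κ a) = S ω) (n : ℕ) (hn : ∀ ω, (S ω).card = n) :
    Ex (unifW (K → ZMod m)) (fun ω => ind (ω κ ∈ S ω)) = n / m := by
  rw [unifW_eq, hU.1 K (fun _ => ZMod m) (fun _ => unifW (ZMod m)) (fun _ => isPr_unif) _ κ,
    ← unifW_eq]
  have h : ∀ ω : K → ZMod m, Ex (unifW (ZMod m)) (fun a => ind (Function.update ω κ a κ ∈
      S (Function.update ω κ a))) = n / m := by
    intro ω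
    simp only [hS, Function.update_self]
    unfold Ex unifW
    rw [← Finset.mul_sum]
    have h1 : ∑ a, ind (a ∈ S ω) = ((S ω).card : ℝ) := by
      have h2 : ∀ a, ind (a ∈ S ω) = if a ∈ S ω then (1 : ℝ) else 0 := by
        intro a
        by_cases ha : a ∈ S ω
        · rw [ind_of ha, if_pos ha]
        · rw [ind_not ha, if_neg ha]
      rw [Finset.sum_congr rfl fun a _ => h2 a]
      simp
    rw [h1, hn, ZMod.card]
    ring
  simp only [h]
  exact ex_const isPr_unifPi _

/-- two bounded weights -/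
theorem dbound {V : Type*} [Fintype V] (R w : V → V → ℝ) (f : V → ℝ) {A β : ℝ} (hA : 0 ≤ A)
    (hR0 : ∀ x y, 0 ≤ R x y) (hRr : ∀ x, ∑ y, R x y ≤ 1) (hRc : ∀ y, ∑ x, R x y ≤ 1)
    (hf0 : ∀ x, 0 ≤ f x) (hf1 : ∀ x, f x ≤ β) (hfs : ∑ x, f x ≤ 1)
    (h : (∀ x y, w x y ≤ A * R x y * f x) ∨ (∀ x y, w x y ≤ A * R x y * f y)) :
    (∀ v, ∑ y, w v y + ∑ x, w x v ≤ 2 * (A * β)) ∧ ∑ v, (∑ y, w v y + ∑ x, w x v) ≤ 2 * A := by
  -- total mass
  have key : ∀ (w R : V → V → ℝ), (∀ x y, 0 ≤ R x y) → (∀ x, ∑ y, R x y ≤ 1) →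
      (∀ y, ∑ x, R x y ≤ 1) → (∀ x y, w x y ≤ A * R x y * f x) →
      (∀ v, ∑ y, w v y ≤ A * β) ∧ (∀ v, ∑ x, w x v ≤ A * β) ∧ ∑ v, ∑ y, w v y ≤ A := by
    intro w R hR0 hRr hRc h
    have hrow : ∀ v, ∑ y, w v y ≤ A * f v := by
      intro v
      calc ∑ y, w v y ≤ ∑ y, A * f v * R v y :=
            Finset.sum_le_sum fun y _ => (h v y).trans (le_of_eq (by ring))
        _ = A * f v * ∑ y, R v y := by rw [Finset.mul_sum]
        _ ≤ A * f v * 1 := mul_le_mul_of_nonneg_left (hRr v) (mul_nonneg hA (hf0 v))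
        _ = A * f v := mul_one _
    refine ⟨fun v => (hrow v).trans (mul_le_mul_of_nonneg_left (hf1 v) hA), fun v => ?_, ?_⟩
    · have hβ : 0 ≤ β := (hf0 v).trans (hf1 v)
      calc ∑ x, w x v ≤ ∑ x, A * β * R x v := by
            refine Finset.sum_le_sum fun x _ => (h x v).trans ?_
            calc A * R x v * f x ≤ A * R x v * β :=
                  mul_le_mul_of_nonneg_left (hf1 x) (mul_nonneg hA (hR0 x v))
              _ = A * β * R x v := by ring
        _ = A * β * ∑ x, R x v := by rw [Finset.mul_sum]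
        _ ≤ A * β * 1 := mul_le_mul_of_nonneg_left (hRc v) (mul_nonneg hA hβ)
        _ = A * β := mul_one _
    · calc ∑ v, ∑ y, w v y ≤ ∑ v, A * f v := Finset.sum_le_sum fun v _ => hrow v
        _ = A * ∑ v, f v := by rw [Finset.mul_sum]
        _ ≤ A * 1 := mul_le_mul_of_nonneg_left hfs hA
        _ = A := mul_one _
  rcases h with h | h
  · obtain ⟨h1, h2, h3⟩ := key w R hR0 hRr hRc h
    refine ⟨fun v => by linarith [h1 v, h2 v], ?_⟩
    rw [Finset.sum_add_distrib]
    have h4 : ∑ v, ∑ x, w x v ≤ A := by rw [Finset.sum_comm]; exact h3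
    linarith
  · obtain ⟨h1, h2, h3⟩ := key (fun x y => w y x) (fun x y => R y x) (fun x y => hR0 y x) hRc hRr
      (fun x y => h y x)
    refine ⟨fun v => by linarith [h1 v, h2 v], ?_⟩
    rw [Finset.sum_add_distrib]
    have h4 : ∑ v, ∑ y, w v y ≤ A := by rw [Finset.sum_comm]; exact h3
    linarith

/-- concentration of a two body sum -/
theorem conc2 (hM : MCD_S.{u, 0}) {V : Type*} [Fintype V] (co : V → Option K)
    (hco : ∀ κ, ∑ v, ind (co v = some κ) ≤ 2) (R w : V → V → ℝ) (f : V → ℝ) {A β d : ℝ}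
    (hA : 0 < A) (hβ : 0 < β) (hd : 0 < d)
    (hR0 : ∀ x y, 0 ≤ R x y) (hRr : ∀ x, ∑ y, R x y ≤ 1) (hRc : ∀ y, ∑ x, R x y ≤ 1)
    (hf0 : ∀ x, 0 ≤ f x) (hf1 : ∀ x, f x ≤ β) (hfs : ∑ x, f x ≤ 1) (hw : ∀ x y, 0 ≤ w x y)
    (h : (∀ x y, w x y ≤ A * R x y * f x) ∨ (∀ x y, w x y ≤ A * R x y * f y))
    (Q : V → V → ZMod m → ZMod m → Prop) (F : (K → ZMod m) → ℝ)
    (hF : ∀ ω, F ω = ∑ x, ∑ y, w x y * ind (Q x y (lvl (co x) ω) (lvl (co y) ω))) :
    Pr (unifW (K → ZMod m)) (fun ω => d ≤ |F ω - Ex (unifW (K → ZMod m)) F|) ≤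
      2 * Real.exp (-(d ^ 2 / (16 * A ^ 2 * β))) := by
  obtain ⟨h1, h2⟩ := dbound R w f hA.le hR0 hRr hRc hf0 hf1 hfs h
  have h3 := mcd_co hM co hco F (fun v => ∑ y, w v y + ∑ x, w x v) (M := 2 * (A * β))
    (S := 2 * A) (d := d)
    (fun v => add_nonneg (Finset.sum_nonneg fun y _ => hw v y) (Finset.sum_nonneg fun x _ => hw x v))
    h1 h2 (by positivity) (by positivity) hd (by
      intro ω κ a
      rw [hF, hF]
      exact two_body co w hw Q ω κ a)
  rw [show 4 * (2 * (A * β)) * (2 * A) = 16 * A ^ 2 * β by ring] at h3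
  exact h3

/-- concentration of one body sums, uniformly in a level -/
theorem conc1 (hM : MCD_S.{u, 0}) (hU : UPD_S.{u, 0}) (hB : BASIC_S.{u, 0}) {V : Type*}
    [Fintype V] (co : V → Option K)
    (hco : ∀ κ, ∑ v, ind (co v = some κ) ≤ 2) (w r : V → ℝ) {A β d δ : ℝ} (hm : 2 ≤ m)
    (hA : 0 < A) (hβ : 0 < β) (hd : 0 < d) (hw : ∀ x, 0 ≤ w x) (hwr : ∀ x, w x ≤ A * r x)
    (hr1 : ∀ x, r x ≤ β) (hrs : ∑ x, r x ≤ 1) (st : V → Prop)
    (hδ : ∑ x, r x * ind (st x ∧ co x = none) ≤ δ) (S : ZMod m → Finset (ZMod m))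
    (hS : ∀ l, (S l).card = 2) :
    Pr (unifW (K → ZMod m)) (fun ω => ∃ l, d + A * δ ≤
      |∑ x, w x * ind (st x ∧ lvl (co x) ω ∈ S l) - ∑ x, w x * (ind (st x) * (2 / m))|) ≤
      m * (2 * Real.exp (-(d ^ 2 / (16 * A ^ 2 * β)))) := by
  obtain ⟨hb1, hb2, -, -, -, -⟩ := hB (K → ZMod m) (unifW (K → ZMod m)) isPr_unifPi
  refine (hb2 (ZMod m) _).trans ?_
  have hm0 : (0 : ℝ) < m := by exact_mod_cast (by omega : 0 < m)
  have key : ∀ l, Pr (unifW (K → ZMod m)) (fun ω => d + A * δ ≤
      |∑ x, w x * ind (st x ∧ lvl (co x) ω ∈ S l) - ∑ x, w x * (ind (st x) * (2 / m))|) ≤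
      2 * Real.exp (-(d ^ 2 / (16 * A ^ 2 * β))) := by
    intro l
    set F : (K → ZMod m) → ℝ := fun ω => ∑ x, w x * ind (st x ∧ lvl (co x) ω ∈ S l) with hF
    have hEF : Ex (unifW (K → ZMod m)) F =
        ∑ x, w x * Ex (unifW (K → ZMod m)) (fun ω => ind (st x ∧ lvl (co x) ω ∈ S l)) := by
      rw [hF, ex_sum]
      exact Finset.sum_congr rfl fun x _ => ex_mul _ _ _
    have hdiff : |Ex (unifW (K → ZMod m)) F - ∑ x, w x * (ind (st x) * (2 / m))| ≤ A * δ := by
      rw [hEF, ← Finset.sum_sub_distrib]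
      refine (Finset.abs_sum_le_sum_abs _ _).trans ?_
      have h1 : ∀ x, |w x * Ex (unifW (K → ZMod m)) (fun ω => ind (st x ∧ lvl (co x) ω ∈ S l)) -
          w x * (ind (st x) * (2 / m))| ≤ A * (r x * ind (st x ∧ co x = none)) := by
        intro x
        rw [← mul_sub, abs_mul, abs_of_nonneg (hw x)]
        have h0 : (fun ω : K → ZMod m => ind (st x ∧ lvl (co x) ω ∈ S l)) =
            fun ω => ind (st x) * ind (lvl (co x) ω ∈ S l) := by
          funext ω
          exact ind_and _ _
        rw [h0, ex_mul, ← mul_sub, abs_mul, abs_of_nonneg (ind_nonneg _), ind_and]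
        rcases hx : co x with _ | κ
        · rw [ind_of (rfl : (none : Option K) = none), mul_one]
          have h2 : |Ex (unifW (K → ZMod m)) (fun ω => ind (lvl (none : Option K) ω ∈ S l)) -
              2 / m| ≤ 1 := by
            have h3 : Ex (unifW (K → ZMod m)) (fun ω => ind (lvl (none : Option K) ω ∈ S l)) =
                ind ((0 : ZMod m) ∈ S l) := by
              change Ex (unifW (K → ZMod m)) (fun _ => ind ((0 : ZMod m) ∈ S l)) = _
              exact ex_const isPr_unifPi _
            rw [h3, abs_le]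
            have h4 : (2 : ℝ) / m ≤ 1 := by
              rw [div_le_one hm0]
              exact_mod_cast hm
            have h5 : (0 : ℝ) < 2 / m := by positivity
            have h6 := ind_nonneg ((0 : ZMod m) ∈ S l)
            have h7 := ind_le_one ((0 : ZMod m) ∈ S l)
            constructor <;> linarith
          calc w x * (ind (st x) * |Ex (unifW (K → ZMod m))
                (fun ω => ind (lvl (none : Option K) ω ∈ S l)) - 2 / m|)
              ≤ w x * (ind (st x) * 1) := mul_le_mul_of_nonneg_left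
                (mul_le_mul_of_nonneg_left h2 (ind_nonneg _)) (hw x)
            _ ≤ A * r x * (ind (st x) * 1) := mul_le_mul_of_nonneg_right (hwr x)
                (mul_nonneg (ind_nonneg _) zero_le_one)
            _ = A * (r x * ind (st x)) := by ring
        · have h3 : Ex (unifW (K → ZMod m)) (fun ω => ind (lvl (some κ) ω ∈ S l)) = 2 / m :=
            ex_shift hU κ (fun _ => S l) (fun _ _ => rfl) 2 (fun _ => hS l)
          rw [h3, sub_self, abs_zero, mul_zero, mul_zero]
          rw [ind_not (by simp : ¬ (some κ = none)), mul_zero, mul_zero, mul_zero]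
      calc ∑ x, |w x * Ex (unifW (K → ZMod m)) (fun ω => ind (st x ∧ lvl (co x) ω ∈ S l)) -
            w x * (ind (st x) * (2 / m))| ≤ ∑ x, A * (r x * ind (st x ∧ co x = none)) :=
            Finset.sum_le_sum fun x _ => h1 x
        _ = A * ∑ x, r x * ind (st x ∧ co x = none) := by rw [Finset.mul_sum]
        _ ≤ A * δ := mul_le_mul_of_nonneg_left hδ hA.le
    have h2 := mcd_co hM co hco F w (M := A * β) (S := A) (d := d) hw
      (fun x => (hwr x).trans (mul_le_mul_of_nonneg_left (hr1 x) hA.le))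
      (by
        calc ∑ x, w x ≤ ∑ x, A * r x := Finset.sum_le_sum fun x _ => hwr x
          _ = A * ∑ x, r x := by rw [Finset.mul_sum]
          _ ≤ A * 1 := mul_le_mul_of_nonneg_left hrs hA.le
          _ = A := mul_one _) (by positivity) hA hd
      (by
        intro ω κ a
        exact one_body co w hw (fun x l' => st x ∧ l' ∈ S l) ω κ a)
    refine (hb1 _ (fun ω => d ≤ |F ω - Ex (unifW (K → ZMod m)) F|) ?_).trans (h2.trans ?_)
    · intro ω hω
      have h3 : |F ω - ∑ x, w x * (ind (st x) * (2 / m))| ≤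
          |F ω - Ex (unifW (K → ZMod m)) F| +
            |Ex (unifW (K → ZMod m)) F - ∑ x, w x * (ind (st x) * (2 / m))| := by
        refine le_trans (le_of_eq ?_) (abs_add_le _ _)
        congr 1
        ring
      have h4 : d + A * δ ≤ |F ω - ∑ x, w x * (ind (st x) * (2 / m))| := hω
      linarith
    · refine mul_le_mul_of_nonneg_left (Real.exp_le_exp.2 ?_) (by norm_num)
      rw [neg_le_neg_iff]
      apply div_le_div_of_nonneg_left (by positivity) (by positivity)
      nlinarith [mul_pos hA (mul_pos hA hβ)]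
  calc ∑ l, Pr (unifW (K → ZMod m)) (fun ω => d + A * δ ≤
      |∑ x, w x * ind (st x ∧ lvl (co x) ω ∈ S l) - ∑ x, w x * (ind (st x) * (2 / m))|)
      ≤ ∑ _l : ZMod m, 2 * Real.exp (-(d ^ 2 / (16 * A ^ 2 * β))) :=
        Finset.sum_le_sum fun l _ => key l
    _ = m * (2 * Real.exp (-(d ^ 2 / (16 * A ^ 2 * β)))) := by
        rw [Finset.sum_const, Finset.card_univ, ZMod.card, nsmul_eq_mul]

end unif

end Pool.Agent.Lib.MP_688fd0_co.TE.H48
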